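import Pool.Agent.H261R3.LH.Stmts

/-! Task Retr of project LH: the 1-Lipschitz retraction of the hyperbolic plane to a closed ball. -/

set_option autoImplicit false

open UpperHalfPlane

namespace Pool.Agent.H380R3.LH

noncomputable def X0 (z : ℍ) : ℝ := (1 + z.re ^ 2 + z.im ^ 2) / (2 * z.im)
noncomputable def X1 (z : ℍ) : ℝ := z.re / z.im
noncomputable def X2 (z : ℍ) : ℝ := (z.re ^ 2 + z.im ^ 2 - 1) / (2 * z.im)

lemma hyp (z : ℍ) : X0 z ^ 2 = 1 + (X1 z ^ 2 + X2 z ^ 2) := by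
  have hz := z.im_pos
  unfold X0 X1 X2
  field_simp
  ring

lemma one_le_X0 (z : ℍ) : 1 ≤ X0 z := by
  have hz := z.im_pos
  unfold X0
  rw [le_div_iff₀ (by positivity)]
  nlinarith [sq_nonneg (z.im - 1), sq_nonneg z.re]

lemma cosh_eq (z w : ℍ) :
    Real.cosh (dist z w) = X0 z * X0 w - (X1 z * X1 w + X2 z * X2 w) := by
  have hz := z.im_pos
  have hw := w.im_pos
  rw [UpperHalfPlane.cosh_dist, Complex.dist_eq, ← Complex.normSq_eq_norm_sq,
    Complex.normSq_apply]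
  simp only [Complex.sub_re, Complex.sub_im, UpperHalfPlane.coe_re, UpperHalfPlane.coe_im]
  unfold X0 X1 X2
  field_simp
  ring

lemma cosh_I (z : ℍ) : Real.cosh (dist z I) = X0 z := by
  rw [cosh_eq]
  simp [X0, X1, X2]

lemma exists_pt (a b c : ℝ) (h : a ^ 2 = 1 + (b ^ 2 + c ^ 2)) (ha : 0 < a) :
    ∃ w : ℍ, X0 w = a ∧ X1 w = b ∧ X2 w = c := by
  have h1 : 0 < a - c := by
    by_contra hcon
    push Not at hcon
    nlinarith [sq_nonneg b]
  have h2 : 0 < 1 / (a - c) := by positivity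
  refine ⟨⟨⟨b / (a - c), 1 / (a - c)⟩, h2⟩, ?_, ?_, ?_⟩
  · show (1 + (b / (a - c)) ^ 2 + (1 / (a - c)) ^ 2) / (2 * (1 / (a - c))) = a
    field_simp
    nlinarith
  · show (b / (a - c)) / (1 / (a - c)) = b
    field_simp
  · show ((b / (a - c)) ^ 2 + (1 / (a - c)) ^ 2 - 1) / (2 * (1 / (a - c))) = c
    field_simp
    nlinarith

lemma eq_of_coords {z w : ℍ} (h0 : X0 z = X0 w) (h1 : X1 z = X1 w) (h2 : X2 z = X2 w) :
    z = w := by
  have h : Real.cosh (dist z w) = 1 := by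
    rw [cosh_eq, h0, h1, h2]
    have := hyp w
    nlinarith
  have h3 : dist z w = 0 := by
    by_contra hne
    have := Real.one_lt_cosh.2 hne
    linarith
  exact dist_eq_zero.1 h3

/-- Cauchy-Schwarz -/
lemma cs (a b c d p q : ℝ) (hp : 0 ≤ p) (hq : 0 ≤ q) (h1 : a ^ 2 + b ^ 2 = p ^ 2)
    (h2 : c ^ 2 + d ^ 2 = q ^ 2) : a * c + b * d ≤ p * q := by
  have h3 : (a * c + b * d) ^ 2 ≤ (p * q) ^ 2 := by
    rw [mul_pow, ← h1, ← h2]
    nlinarith [sq_nonneg (a * d - b * c)]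
  exact le_of_sq_le_sq h3 (by positivity)
where
  le_of_sq_le_sq {x y : ℝ} (h : x ^ 2 ≤ y ^ 2) (hy : 0 ≤ y) : x ≤ y := by
    nlinarith [abs_le_of_sq_le_sq' h hy]

lemma ineq_both (x w c s n m e : ℝ) (hx : c ≤ x) (hw : c ≤ w) (hc : 1 ≤ c) (hs : 0 ≤ s)
    (hcs : c ^ 2 = 1 + s ^ 2) (hn : 0 < n) (hm : 0 < m) (hn2 : x ^ 2 = 1 + n ^ 2)
    (hm2 : w ^ 2 = 1 + m ^ 2) (he : e ≤ n * m) :
    c * c - (s / n) * (s / m) * e ≤ x * w - e := by
  have hsn : s ≤ n := by nlinarith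
  have hsm : s ≤ m := by nlinarith
  have h1 : n * m ≤ x * w - 1 := by
    have h2 : (n * m) ^ 2 ≤ (x * w - 1) ^ 2 := by
      rw [mul_pow]
      have e1 : n ^ 2 = x ^ 2 - 1 := by linarith
      have e2 : m ^ 2 = w ^ 2 - 1 := by linarith
      rw [e1, e2]
      nlinarith [sq_nonneg (x - w)]
    have h3 : 0 ≤ x * w - 1 := by nlinarith
    exact (abs_le_of_sq_le_sq' h2 h3).2
  have h4 : (s / n) * (s / m) ≤ 1 := by
    rw [div_mul_div_comm, div_le_one (by positivity)]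
    nlinarith
  have h5 : (1 - (s / n) * (s / m)) * e ≤ (1 - (s / n) * (s / m)) * (n * m) :=
    mul_le_mul_of_nonneg_left he (by linarith)
  have h6 : (1 - (s / n) * (s / m)) * (n * m) = n * m - s ^ 2 := by
    field_simp
  nlinarith

lemma ineq_one (x w c s n m e : ℝ) (hx : c ≤ x) (hw : w ≤ c) (hw1 : 1 ≤ w) (hc : 1 ≤ c)
    (hs : 0 ≤ s) (hcs : c ^ 2 = 1 + s ^ 2) (hn : 0 < n) (hm : 0 ≤ m) (hn2 : x ^ 2 = 1 + n ^ 2)
    (hm2 : w ^ 2 = 1 + m ^ 2) (he : e ≤ n * m) :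
    c * w - (s / n) * e ≤ x * w - e := by
  have hsn : s ≤ n := by nlinarith
  have h4 : s / n ≤ 1 := by
    rw [div_le_one hn]; exact hsn
  have h5 : (1 - s / n) * e ≤ (1 - s / n) * (n * m) :=
    mul_le_mul_of_nonneg_left he (by linarith)
  have h6 : (1 - s / n) * (n * m) = (n - s) * m := by
    field_simp
  have h7 : m * x ≤ w * n := by
    have h8 : (m * x) ^ 2 ≤ (w * n) ^ 2 := by
      rw [mul_pow, mul_pow, hn2, hm2]
      have : m ^ 2 ≤ n ^ 2 := by nlinarith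
      nlinarith
    exact (abs_le_of_sq_le_sq' h8 (by positivity)).2
  have h9 : m * c ≤ w * s := by
    have h8 : (m * c) ^ 2 ≤ (w * s) ^ 2 := by
      rw [mul_pow, mul_pow, hcs, hm2]
      have : m ^ 2 ≤ s ^ 2 := by nlinarith
      nlinarith
    exact (abs_le_of_sq_le_sq' h8 (by positivity)).2
  have h10 : (n - s) * (n + s) = (x - c) * (x + c) := by nlinarith
  have h11 : m * (x + c) ≤ w * (n + s) := by nlinarith
  -- (n - s) m (n + s) = (x - c)(x + c) m ≤ (x - c) w (n + s)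
  have h12 : (n - s) * m * (n + s) ≤ (x - c) * w * (n + s) := by
    have : (x - c) * (m * (x + c)) ≤ (x - c) * (w * (n + s)) :=
      mul_le_mul_of_nonneg_left h11 (by linarith)
    nlinarith
  have h13 : (n - s) * m ≤ (x - c) * w := le_of_mul_le_mul_right h12 (by linarith)
  nlinarith

lemma cosh_le {a b : ℝ} (ha : 0 ≤ a) (hb : 0 ≤ b) (h : Real.cosh a ≤ Real.cosh b) : a ≤ b := by
  rw [Real.cosh_le_cosh, abs_of_nonneg ha, abs_of_nonneg hb] at h
  exact h

theorem taskRetr : Pool.Agent.H261R3.LH.TaskRetr := by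
  intro R hR
  set c := Real.cosh R with hc
  set s := Real.sinh R with hs
  have hc1 : 1 ≤ c := Real.one_le_cosh R
  have hs0 : 0 ≤ s := Real.sinh_nonneg_iff.2 hR
  have hcs : c ^ 2 = 1 + s ^ 2 := by
    have := Real.cosh_sq R
    linarith
  have hin : ∀ z : ℍ, dist z I ≤ R ↔ X0 z ≤ c := by
    intro z
    rw [← cosh_I, hc, Real.cosh_le_cosh, abs_of_nonneg dist_nonneg, abs_of_nonneg hR]
  -- the norm
  have hN : ∀ z : ℍ, ∃ n : ℝ, 0 ≤ n ∧ X0 z ^ 2 = 1 + n ^ 2 ∧ X1 z ^ 2 + X2 z ^ 2 = n ^ 2 := by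
    intro z
    refine ⟨Real.sqrt (X1 z ^ 2 + X2 z ^ 2), Real.sqrt_nonneg _, ?_, ?_⟩
    · rw [Real.sq_sqrt (by positivity)]; exact hyp z
    · rw [Real.sq_sqrt (by positivity)]
  choose n hn0 hn2 hn3 using hN
  have hnpos : ∀ z : ℍ, c < X0 z → 0 < n z := by
    intro z hz
    rcases (hn0 z).lt_or_eq with h | h
    · exact h
    · exfalso
      have := hn2 z
      rw [← h] at this
      nlinarith
  have hP : ∀ z : ℍ, ∃ w : ℍ, (X0 z ≤ c → w = z) ∧
      (c < X0 z → X0 w = c ∧ X1 w = s / n z * X1 z ∧ X2 w = s / n z * X2 z) := by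
    intro z
    by_cases h : X0 z ≤ c
    · exact ⟨z, fun _ => rfl, fun h' => absurd h (not_le.2 h')⟩
    · push Not at h
      obtain ⟨w, h0, h1, h2⟩ := exists_pt c (s / n z * X1 z) (s / n z * X2 z) (by
        have h3 : (s / n z * X1 z) ^ 2 + (s / n z * X2 z) ^ 2 = s ^ 2 := by
          have h4 := hnpos z h
          have h5 := hn3 z
          rw [mul_pow, mul_pow, ← mul_add, h5, div_pow]
          field_simp
        rw [h3, hcs]) (by linarith)
      exact ⟨w, fun h' => absurd h (not_lt.2 h'), fun _ => ⟨h0, h1, h2⟩⟩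
  choose ρ hρ1 hρ2 using hP
  refine ⟨ρ, ?_, ?_, ?_⟩
  · intro z
    rw [hin]
    by_cases h : X0 z ≤ c
    · rw [hρ1 z h]; exact h
    · push Not at h
      rw [(hρ2 z h).1]
  · intro z hz
    exact hρ1 z ((hin z).1 hz)
  · -- one outside
    have one : ∀ z w : ℍ, c < X0 z → X0 w ≤ c → dist (ρ z) (ρ w) ≤ dist z w := by
      intro z w hz hw
      refine cosh_le dist_nonneg dist_nonneg ?_
      obtain ⟨a0, a1, a2⟩ := hρ2 z hz
      rw [hρ1 w hw, cosh_eq, cosh_eq, a0, a1, a2]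
      have := ineq_one (X0 z) (X0 w) c s (n z) (n w) (X1 z * X1 w + X2 z * X2 w) hz.le hw
        (one_le_X0 w) hc1 hs0 hcs (hnpos z hz) (hn0 w) (hn2 z) (hn2 w)
        (cs _ _ _ _ _ _ (hn0 z) (hn0 w) (hn3 z) (hn3 w))
      calc c * X0 w - (s / n z * X1 z * X1 w + s / n z * X2 z * X2 w)
          = c * X0 w - s / n z * (X1 z * X1 w + X2 z * X2 w) := by ring
        _ ≤ _ := this
    intro z w
    by_cases hz : X0 z ≤ c
    · by_cases hw : X0 w ≤ c
      · rw [hρ1 z hz, hρ1 w hw]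
      · push Not at hw
        have := one w z hw hz
        rwa [dist_comm (ρ w), dist_comm w] at this
    · push Not at hz
      by_cases hw : X0 w ≤ c
      · exact one z w hz hw
      · push Not at hw
        refine cosh_le dist_nonneg dist_nonneg ?_
        obtain ⟨a0, a1, a2⟩ := hρ2 z hz
        obtain ⟨b0, b1, b2⟩ := hρ2 w hw
        rw [cosh_eq, cosh_eq, a0, a1, a2, b0, b1, b2]
        have := ineq_both (X0 z) (X0 w) c s (n z) (n w) (X1 z * X1 w + X2 z * X2 w) hz.le hw.le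
          hc1 hs0 hcs (hnpos z hz) (hnpos w hw) (hn2 z) (hn2 w)
          (cs _ _ _ _ _ _ (hn0 z) (hn0 w) (hn3 z) (hn3 w))
        calc c * c - (s / n z * X1 z * (s / n w * X1 w) + s / n z * X2 z * (s / n w * X2 w))
            = c * c - s / n z * (s / n w) * (X1 z * X1 w + X2 z * X2 w) := by ring
          _ ≤ _ := this

end Pool.Agent.H380R3.LH
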